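import Pool.Agent.Y372.TA.QdjC

/-!
Project TA (helper472): the expansion of the product with formulas for the coefficients.
-/

set_option autoImplicit false

namespace Pool.Agent.Y372.TA

open Finset Filter Topology MeasureTheory
open scoped Real Nat
open Pool.Agent.Y472.K Pool.Agent.Y472.L Pool.Agent.Y971.TKX Pool.Agent.W571.FE.EM

theorem bb_rat : ∀ n, ∃ q : ℚ, bb 1 n = q := by
  intro n
  induction n using Nat.strong_induction_on with
  | _ n ih =>
    choose! q hq using ih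
    refine ⟨(1 - 1 / ((n : ℚ) + 2) - ∑ k : Fin n, q k * ((n + 1).descFactorial k : ℕ)) /
      ((n + 1)! : ℕ), ?_⟩
    rw [bb, Finset.sum_congr rfl (fun (k : Fin n) _ => by rw [hq k k.2])]
    push_cast
    rw [one_pow]

theorem bb_zero : bb 1 0 = 1 / 2 := by
  rw [bb]
  simp
  norm_num

/-- the derivative of `el` -/
noncomputable def ed (w : ℂ) : ℂ :=
  -(Complex.I * Complex.exp (Complex.I * w)) / (1 - Complex.exp (Complex.I * w))

theorem el_hd {w : ℂ} (hw : 0 < w.im) : HasDerivAt el (ed w) w := by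
  have h1 : HasDerivAt (fun w : ℂ => 1 - Complex.exp (Complex.I * w))
      (-(Complex.exp (Complex.I * w) * (Complex.I * 1))) w :=
    (((hasDerivAt_id w).const_mul Complex.I).cexp).const_sub 1
  have h2 : 1 - Complex.exp (Complex.I * w) ∈ Complex.slitPlane := by
    rw [Complex.mem_slitPlane_iff]
    exact Or.inl (re_pos hw)
  have h3 : HasDerivAt el _ w := h1.clog h2
  refine h3.congr_deriv ?_
  unfold ed
  ring

theorem trig_aux {A B : ℂ} (hA : A ≠ 0) (hB : B ≠ 0) (h1 : 1 - A * B ≠ 0) (h2 : 1 - A * B⁻¹ ≠ 0) :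
    A + A⁻¹ - (B + B⁻¹) ≠ 0 ∧
    -(Complex.I * (A * B)) / (1 - A * B) - -(Complex.I * (A * B⁻¹)) / (1 - A * B⁻¹) =
      (B⁻¹ - B) * Complex.I / (A + A⁻¹ - (B + B⁻¹)) ∧
    -Complex.I + -(Complex.I * (A * B)) / (1 - A * B) + -(Complex.I * (A * B⁻¹)) / (1 - A * B⁻¹) =
      -((A⁻¹ - A) * Complex.I) / (A + A⁻¹ - (B + B⁻¹)) := by
  have h3 : A + A⁻¹ - (B + B⁻¹) = A⁻¹ * ((1 - A * B) * (1 - A * B⁻¹)) := by
    field_simp
    ring
  have h4 : A⁻¹ * ((1 - A * B) * (1 - A * B⁻¹)) ≠ 0 :=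
    mul_ne_zero (inv_ne_zero hA) (mul_ne_zero h1 h2)
  have h5 : B - A ≠ 0 := by
    intro h
    apply h2
    have : B = A := by linear_combination h
    rw [this, mul_inv_cancel₀ hA, sub_self]
  refine ⟨by rw [h3]; exact h4, ?_, ?_⟩
  · rw [h3]
    field_simp
    ring
  · rw [h3]
    field_simp
    ring

theorem ed_id {χ ph : ℂ} (h1 : 0 < (χ + ph).im) (h2 : 0 < (χ - ph).im) :
    2 * Complex.cos χ - 2 * Complex.cos ph ≠ 0 ∧
    ed (χ + ph) - ed (χ - ph) = 2 * Complex.sin ph / (2 * Complex.cos χ - 2 * Complex.cos ph) ∧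
    -Complex.I + ed (χ + ph) + ed (χ - ph) =
      -(2 * Complex.sin χ) / (2 * Complex.cos χ - 2 * Complex.cos ph) := by
  have n1 := ne_zero h1
  have n2 := ne_zero h2
  obtain ⟨A, hA⟩ : ∃ A : ℂ, A = Complex.exp (Complex.I * χ) := ⟨_, rfl⟩
  obtain ⟨B, hB⟩ : ∃ B : ℂ, B = Complex.exp (Complex.I * ph) := ⟨_, rfl⟩
  have hA0 : A ≠ 0 := by rw [hA]; exact Complex.exp_ne_zero _
  have hB0 : B ≠ 0 := by rw [hB]; exact Complex.exp_ne_zero _
  have e1 : Complex.exp (Complex.I * (χ + ph)) = A * B := by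
    rw [hA, hB, ← Complex.exp_add]; congr 1; ring
  have e2 : Complex.exp (Complex.I * (χ - ph)) = A * B⁻¹ := by
    rw [hA, hB, ← Complex.exp_neg, ← Complex.exp_add]; congr 1; ring
  have e3 : Complex.exp (χ * Complex.I) = A := by rw [hA]; congr 1; ring
  have e4 : Complex.exp (-χ * Complex.I) = A⁻¹ := by
    rw [hA, ← Complex.exp_neg]; congr 1; ring
  have e5 : Complex.exp (ph * Complex.I) = B := by rw [hB]; congr 1; ring
  have e6 : Complex.exp (-ph * Complex.I) = B⁻¹ := by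
    rw [hB, ← Complex.exp_neg]; congr 1; ring
  have e7 : 2 * Complex.cos χ - 2 * Complex.cos ph = A + A⁻¹ - (B + B⁻¹) := by
    rw [Complex.cos, Complex.cos, e3, e4, e5, e6]; ring
  have e8 : 2 * Complex.sin ph = (B⁻¹ - B) * Complex.I := by
    rw [Complex.sin, e5, e6]; ring
  have e9 : 2 * Complex.sin χ = (A⁻¹ - A) * Complex.I := by
    rw [Complex.sin, e3, e4]; ring
  rw [e1] at n1
  rw [e2] at n2
  obtain ⟨t1, t2, t3⟩ := trig_aux hA0 hB0 n1 n2
  unfold ed
  rw [e1, e2, e7, e8, e9]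
  exact ⟨t1, t2, t3⟩

theorem DF0 (χ w : ℂ) : DF 0 χ w = FF χ w := by
  simp [DF, FF, iteratedDeriv_zero]

theorem line_d (c w χ a b s : ℂ) :
    HasDerivAt (fun s : ℂ => (χ + s * b) + c * (w + s * a)) (b + c * a) s := by
  have h1 : HasDerivAt (fun s : ℂ => χ + s * b) b s := by
    simpa using ((hasDerivAt_id s).mul_const b).const_add χ
  have h2 : HasDerivAt (fun s : ℂ => w + s * a) a s := by
    simpa using ((hasDerivAt_id s).mul_const a).const_add w
  exact h1.add (h2.const_mul c)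

theorem line_el {c w χ a b s : ℂ} (h : 0 < ((χ + s * b) + c * (w + s * a)).im) :
    HasDerivAt (fun s : ℂ => el ((χ + s * b) + c * (w + s * a)))
      (ed ((χ + s * b) + c * (w + s * a)) * (b + c * a)) s :=
  HasDerivAt.comp (h₂ := el) (h := fun s : ℂ => (χ + s * b) + c * (w + s * a)) s (el_hd h)
    (line_d c w χ a b s)

/-- the derivative of `FF` along lines -/
theorem FF_line {w χ : ℂ} (h1 : 0 < (χ + 2 * π * w).im) (h2 : 0 < (χ - 2 * π * w).im) (a b : ℂ) :
    HasDerivAt (fun s : ℂ => FF (χ + s * b) (w + s * a))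
      (a * (4 * π * Complex.sin (2 * π * w) / dn w χ) - b * (2 * Complex.sin χ / dn w χ)) 0 := by
  obtain ⟨i1, i2, i3⟩ := ed_id h1 h2
  have g1 : HasDerivAt (fun s : ℂ => el ((χ + s * b) + (2 * π) * (w + s * a))) _ 0 :=
    line_el (c := 2 * π) (w := w) (χ := χ) (a := a) (b := b) (s := 0) (by simpa using h1)
  have g2 : HasDerivAt (fun s : ℂ => el ((χ + s * b) + (-(2 * π)) * (w + s * a))) _ 0 :=
    line_el (c := -(2 * π)) (w := w) (χ := χ) (a := a) (b := b) (s := 0) (by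
      have : (χ + 0 * b) + -(2 * π) * (w + 0 * a) = χ - 2 * π * w := by ring
      rw [this]; exact h2)
  have g0 : HasDerivAt (fun s : ℂ => -(Complex.I * (χ + s * b))) (-(Complex.I * b)) 0 := by
    have h3 : HasDerivAt (fun s : ℂ => χ + s * b) b 0 := by
      simpa using ((hasDerivAt_id (0 : ℂ)).mul_const b).const_add χ
    exact (h3.const_mul Complex.I).neg
  have g := (g0.add g1).add g2
  have e0 : (fun s : ℂ => FF (χ + s * b) (w + s * a)) = fun s : ℂ =>
      (-(Complex.I * (χ + s * b)) + el ((χ + s * b) + (2 * π) * (w + s * a))) +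
        el ((χ + s * b) + (-(2 * π)) * (w + s * a)) := by
    funext s
    unfold FF
    congr 2
    ring
  rw [e0]
  refine g.congr_deriv ?_
  have e1 : (χ + 0 * b) + 2 * π * (w + 0 * a) = χ + 2 * π * w := by ring
  have e2 : (χ + 0 * b) + -(2 * π) * (w + 0 * a) = χ - 2 * π * w := by ring
  rw [e1, e2]
  unfold dn
  have i2' : 4 * π * Complex.sin (2 * π * w) / (2 * Complex.cos χ - 2 * Complex.cos (2 * π * w)) =
      2 * π * (ed (χ + 2 * π * w) - ed (χ - 2 * π * w)) := by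
    rw [i2]; ring
  have i3' : 2 * Complex.sin χ / (2 * Complex.cos χ - 2 * Complex.cos (2 * π * w)) =
      -(-Complex.I + ed (χ + 2 * π * w) + ed (χ - 2 * π * w)) := by
    rw [i3]; ring
  rw [i2', i3']
  ring

theorem DF_succ {w χ : ℂ} (h1 : 0 < (χ + 2 * π * w).im) (h2 : 0 < (χ - 2 * π * w).im) (k : ℕ) :
    DF (k + 1) χ w = qt1 k w χ := by
  rw [← iter_FF χ (k + 1) w h1 h2, iteratedDeriv_succ']
  unfold qt1
  apply Filter.EventuallyEq.iteratedDeriv_eq
  filter_upwards [(isOpen_W χ).mem_nhds (show w ∈ {w : ℂ | 0 < (χ + 2 * π * w).im ∧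
        0 < (χ - 2 * π * w).im} from ⟨h1, h2⟩)] with v hv
  have g1 := FF_line hv.1 hv.2 1 0
  have g2 : HasDerivAt (fun s : ℂ => v + s * 1) 1 0 := by
    simpa using ((hasDerivAt_id (0 : ℂ)).mul_const (1 : ℂ)).const_add v
  -- the derivative in the first variable
  have hd : DifferentiableAt ℂ (FF χ) v := by
    unfold FF
    have d1 : DifferentiableAt ℂ (fun w : ℂ => el (χ + 2 * π * w)) v :=
      DifferentiableAt.comp (g := el) v (el_diffAt hv.1) (by fun_prop)
    have d2 : DifferentiableAt ℂ (fun w : ℂ => el (χ - 2 * π * w)) v :=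
      DifferentiableAt.comp (g := el) v (el_diffAt hv.2) (by fun_prop)
    exact ((differentiableAt_const _).add d1).add d2
  have g3 : HasDerivAt (FF χ) (deriv (FF χ) v) (v + 0 * 1) := by
    simpa using hd.hasDerivAt
  have g4 := g3.comp (0 : ℂ) g2
  have g5 : (fun s : ℂ => FF (χ + s * 0) (v + s * 1)) = FF χ ∘ fun s : ℂ => v + s * 1 := by
    funext s
    simp
  rw [g5] at g1
  have := g4.unique g1
  rw [mul_one] at this
  rw [this]
  ring

theorem Th_line {y : ℝ} (hy : 0 < y) {G : ℂ → ℂ} {Θ : ℂ → ℂ → ℂ} {c0 : ℂ} {R : ℝ}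
    (hU : ∀ w ∈ Metric.ball c0 R, 0 < w.im)
    (hG : ∀ w ∈ Metric.ball c0 R, HasDerivAt G (el w) w)
    (hΘ : Θ = fun t χ => -(Complex.I * χ * t) + (G (χ + 2 * π * t) - G (χ - 2 * π * t)) / (2 * π))
    {w χ : ℂ} (h1 : χ + 2 * π * w ∈ Metric.ball c0 R) (h2 : χ - 2 * π * w ∈ Metric.ball c0 R)
    (a b : ℂ) :
    deriv (deriv fun s : ℂ => Θ (w + s * a) (χ + s * b)) 0 =
      a ^ 2 * (4 * π * Complex.sin (2 * π * w) / dn w χ) -
      2 * a * b * (2 * Complex.sin χ / dn w χ) +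
      b ^ 2 * (Complex.sin (2 * π * w) / (π * dn w χ)) := by
  have hpi : (π : ℂ) ≠ 0 := by exact_mod_cast Real.pi_ne_zero
  obtain ⟨i1, i2, i3⟩ := ed_id (hU _ h1) (hU _ h2)
  -- points near zero
  have o1 : ∀ᶠ s in 𝓝 (0 : ℂ), (χ + s * b) + (2 * π) * (w + s * a) ∈ Metric.ball c0 R := by
    have hc : ContinuousAt (fun s : ℂ => (χ + s * b) + (2 * π) * (w + s * a)) 0 := by fun_prop
    apply hc.eventually_mem
    apply Metric.isOpen_ball.mem_nhds
    simpa using h1
  have o2 : ∀ᶠ s in 𝓝 (0 : ℂ), (χ + s * b) + (-(2 * π)) * (w + s * a) ∈ Metric.ball c0 R := by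
    have hc : ContinuousAt (fun s : ℂ => (χ + s * b) + (-(2 * π)) * (w + s * a)) 0 := by fun_prop
    apply hc.eventually_mem
    apply Metric.isOpen_ball.mem_nhds
    have e : (χ + 0 * b) + (-(2 * (π : ℂ))) * (w + 0 * a) = χ - 2 * π * w := by ring
    rw [e]
    exact h2
  have e0 : (fun s : ℂ => Θ (w + s * a) (χ + s * b)) = fun s : ℂ =>
      -(Complex.I * ((χ + s * b) * (w + s * a))) +
        (G ((χ + s * b) + (2 * π) * (w + s * a)) - G ((χ + s * b) + (-(2 * π)) * (w + s * a))) /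
          (2 * π) := by
    funext s
    rw [hΘ]
    have e : (χ + s * b) + (-(2 * π)) * (w + s * a) = (χ + s * b) - 2 * π * (w + s * a) := by ring
    rw [e]
    ring
  have l1 : ∀ s : ℂ, HasDerivAt (fun s : ℂ => χ + s * b) b s := fun s => by
    simpa using ((hasDerivAt_id s).mul_const b).const_add χ
  have l2 : ∀ s : ℂ, HasDerivAt (fun s : ℂ => w + s * a) a s := fun s => by
    simpa using ((hasDerivAt_id s).mul_const a).const_add w
  have d1 : deriv (fun s : ℂ => Θ (w + s * a) (χ + s * b)) =ᶠ[𝓝 0] fun s : ℂ =>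
      -(Complex.I * (b * (w + s * a) + (χ + s * b) * a)) +
        (el ((χ + s * b) + (2 * π) * (w + s * a)) * (b + 2 * π * a) -
          el ((χ + s * b) + (-(2 * π)) * (w + s * a)) * (b + -(2 * π) * a)) / (2 * π) := by
    rw [e0]
    filter_upwards [o1, o2] with s hs1 hs2
    have g1 := (hG _ hs1).comp s (line_d (2 * π) w χ a b s)
    have g2 := (hG _ hs2).comp s (line_d (-(2 * π)) w χ a b s)
    have g3 := (((l1 s).mul (l2 s)).const_mul Complex.I).neg
    exact (g3.add ((g1.sub g2).div_const (2 * (π : ℂ)))).deriv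
  rw [d1.deriv_eq]
  have k1 : 0 < ((χ + 0 * b) + (2 * (π : ℂ)) * (w + 0 * a)).im := by
    have e : (χ + 0 * b) + (2 * (π : ℂ)) * (w + 0 * a) = χ + 2 * π * w := by ring
    rw [e]
    exact hU _ h1
  have k2 : 0 < ((χ + 0 * b) + (-(2 * (π : ℂ))) * (w + 0 * a)).im := by
    have e : (χ + 0 * b) + (-(2 * (π : ℂ))) * (w + 0 * a) = χ - 2 * π * w := by ring
    rw [e]
    exact hU _ h2
  have g1 := (line_el (c := 2 * π) k1).mul_const (b + 2 * π * a)
  have g2 := (line_el (c := -(2 * π)) k2).mul_const (b + -(2 * π) * a)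
  have g3 := ((((l2 0).const_mul b).add ((l1 0).mul_const a)).const_mul Complex.I).neg
  have g4 := g3.add ((g1.sub g2).div_const (2 * (π : ℂ)))
  refine (HasDerivAt.deriv g4).trans ?_
  have e1 : (χ + 0 * b) + 2 * π * (w + 0 * a) = χ + 2 * π * w := by ring
  have e2 : (χ + 0 * b) + -(2 * π) * (w + 0 * a) = χ - 2 * π * w := by ring
  rw [e1, e2]
  unfold dn
  have i2' : Complex.sin (2 * π * w) / (2 * Complex.cos χ - 2 * Complex.cos (2 * π * w)) =
      (ed (χ + 2 * π * w) - ed (χ - 2 * π * w)) / 2 := by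
    rw [i2]; ring
  have i3' : 2 * Complex.sin χ / (2 * Complex.cos χ - 2 * Complex.cos (2 * π * w)) =
      -(-Complex.I + ed (χ + 2 * π * w) + ed (χ - 2 * π * w)) := by
    rw [i3]; ring
  have i4 : 4 * π * Complex.sin (2 * π * w) / (2 * Complex.cos χ - 2 * Complex.cos (2 * π * w)) =
      4 * π * ((ed (χ + 2 * π * w) - ed (χ - 2 * π * w)) / 2) := by
    rw [← i2']; ring
  have i5 : Complex.sin (2 * π * w) / (π * (2 * Complex.cos χ - 2 * Complex.cos (2 * π * w))) =
      ((ed (χ + 2 * π * w) - ed (χ - 2 * π * w)) / 2) / π := by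
    rw [← i2', div_div, mul_comm (π : ℂ)]
  rw [i3', i4, i5]
  field_simp
  ring

theorem el_per {χ ph : ℂ} (h : ∃ n : ℤ, χ = ph + n * (2 * π)) : el χ = el ph := by
  obtain ⟨n, rfl⟩ := h
  unfold el
  have : Complex.exp (Complex.I * (ph + n * (2 * π))) = Complex.exp (Complex.I * ph) := by
    rw [mul_add, Complex.exp_add]
    have h2 : Complex.exp (Complex.I * (n * (2 * π))) = 1 := by
      rw [Complex.exp_eq_one_iff]
      exact ⟨n, by ring⟩
    rw [h2, mul_one]
  rw [this]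

theorem qdj : Pool.Agent.Y472.L.S_QDJ := by
  intro y hy
  obtain ⟨G, Θ, hG, hΘ, a1, a2, r, hr, r1, r2⟩ := core hy
  choose q hq using bb_rat
  have hU : ∀ w ∈ Metric.ball (((((3 * π) ^ 2 + y ^ 2) / y : ℝ) : ℂ) * Complex.I)
      (((3 * π) ^ 2 + y ^ 2) / y), 0 < w.im := fun w hw => disc_sub hy hw
  -- points near the segment
  have hnear : ∀ t : ℝ, 0 ≤ t → t ≤ 1 → ∀ᶠ p : ℂ × ℂ in 𝓝 (((t : ℂ), y * Complex.I) : ℂ × ℂ),
      p.2 + 2 * π * p.1 ∈ Metric.ball (((((3 * π) ^ 2 + y ^ 2) / y : ℝ) : ℂ) * Complex.I)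
        (((3 * π) ^ 2 + y ^ 2) / y) ∧
      p.2 - 2 * π * p.1 ∈ Metric.ball (((((3 * π) ^ 2 + y ^ 2) / y : ℝ) : ℂ) * Complex.I)
        (((3 * π) ^ 2 + y ^ 2) / y) := by
    intro t h0 h1
    have hpi := Real.pi_pos
    obtain ⟨i1, i2⟩ := im_pm (x := 0) (y := y) (t := t)
    rw [Complex.ofReal_zero, zero_add] at i1 i2
    have e : (2 * (π : ℂ) * (t : ℂ)) = ((2 * π * t : ℝ) : ℂ) := by push_cast; ring
    have hpt : 0 ≤ 2 * π * t := by positivity
    have hpt1 : 2 * π * t ≤ 2 * π := by nlinarith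
    have m1 : (y * Complex.I : ℂ) + 2 * π * (t : ℂ) ∈
        Metric.ball (((((3 * π) ^ 2 + y ^ 2) / y : ℝ) : ℂ) * Complex.I) (((3 * π) ^ 2 + y ^ 2) / y) := by
      refine mem_disc hy i1 ?_
      rw [e]
      simp only [Complex.add_re, Complex.mul_re, Complex.ofReal_re, Complex.ofReal_im, Complex.I_re,
        Complex.I_im]
      rw [abs_le]
      constructor <;> linarith
    have m2 : (y * Complex.I : ℂ) - 2 * π * (t : ℂ) ∈
        Metric.ball (((((3 * π) ^ 2 + y ^ 2) / y : ℝ) : ℂ) * Complex.I) (((3 * π) ^ 2 + y ^ 2) / y) := by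
      refine mem_disc hy i2 ?_
      rw [e]
      simp only [Complex.sub_re, Complex.mul_re, Complex.ofReal_re,
        Complex.ofReal_im, Complex.I_re, Complex.I_im]
      rw [abs_le]
      constructor <;> linarith
    have c1 : ContinuousAt (fun p : ℂ × ℂ => p.2 + 2 * π * p.1) ((t : ℂ), (y * Complex.I : ℂ)) := by
      fun_prop
    have c2 : ContinuousAt (fun p : ℂ × ℂ => p.2 - 2 * π * p.1) ((t : ℂ), (y * Complex.I : ℂ)) := by
      fun_prop
    exact (c1.eventually_mem (Metric.isOpen_ball.mem_nhds m1)).and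
      (c2.eventually_mem (Metric.isOpen_ball.mem_nhds m2))
  refine ⟨Θ, fun k t χ => (bb 1 k : ℂ) * DF k χ t, fun k => q (k + 1), a1, a2, ?_, ?_, ?_, r, hr,
    r1, r2⟩
  · intro t h0 h1
    filter_upwards [hnear t h0 h1] with p hp a b
    exact Th_line hy hU hG hΘ hp.1 hp.2 a b
  · intro t h0 h1
    filter_upwards [hnear t h0 h1] with p hp
    constructor
    · intro a b
      have g := (FF_line (hU _ hp.1) (hU _ hp.2) a b).const_mul ((bb 1 0 : ℝ) : ℂ)
      have e : (fun s : ℂ => ((bb 1 0 : ℝ) : ℂ) * DF 0 (p.2 + s * b) (p.1 + s * a)) =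
          fun s : ℂ => ((bb 1 0 : ℝ) : ℂ) * FF (p.2 + s * b) (p.1 + s * a) := by
        funext s
        rw [DF0]
      have g' := g.deriv
      beta_reduce
      rw [e, g', bb_zero]
      push_cast
      ring
    · intro k
      beta_reduce
      rw [DF_succ (hU _ hp.1) (hU _ hp.2), hq (k + 1)]
      push_cast
      rfl
  · intro t h0 h1
    beta_reduce
    rw [DF0, DF0]
    unfold FF
    have e1 : el (y * Complex.I + 2 * π * ((1 - t : ℝ) : ℂ)) = el (y * Complex.I - 2 * π * (t : ℂ)) :=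
      el_per ⟨1, by push_cast; ring⟩
    have e2 : el (y * Complex.I - 2 * π * ((1 - t : ℝ) : ℂ)) = el (y * Complex.I + 2 * π * (t : ℂ)) :=
      el_per ⟨-1, by push_cast; ring⟩
    rw [e1, e2]
    ring

end Pool.Agent.Y372.TA
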