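import Pool.Agent.Y472.L.Defs
import Pool.Agent.Y971.TKX.Qdx

/-!
Project TA (helper472): the expansion of the product with formulas for the coefficients.
The first part follows the file `Pool/Agent/Y971/TKX/Qdx.lean` (helper971) and
`Pool/Agent/W571/FE/EM.lean`.
-/

set_option autoImplicit false
set_option linter.all false

namespace Pool.Agent.Y372.TA

section em

open Pool.Agent.W707.FE Pool.Agent.W571.FE.EM Filter MeasureTheory Set
open scoped Real Topology Nat

theorem em_ex (θ : ℝ) (h0 : 0 ≤ θ) (h1 : θ ≤ 1) (K : ℕ) : ∃ C : ℝ, 0 ≤ C ∧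
  ∀ (F : ℂ → ℂ) (z : ℂ) (n : ℕ) (ε σ B : ℝ), 0 < ε → 4 * ε ≤ σ →
    (∀ x : ℝ, 0 ≤ x → x ≤ n * ε → ∀ w : ℂ, ‖w - (z + x)‖ < σ →
      DifferentiableAt ℂ F w ∧ ‖F w‖ ≤ B) →
    ‖(∑ j ∈ Finset.range n, F (z + ε * (j + θ))) -
      (ε : ℂ)⁻¹ * (∫ x in (0:ℝ)..(n * ε), F (z + x)) -
      ∑ k ∈ Finset.range K, (bb θ k : ℂ) * (ε : ℂ) ^ k *
        (iteratedDeriv k F (z + n * ε) - iteratedDeriv k F z)‖ ≤ C * (n * B * (ε / σ) ^ (K + 1)) := by
  refine ⟨Cc θ K, Cc_nonneg θ K, ?_⟩
  intro F z n ε σ B hε hεσ hF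
  have hσ : 0 < σ := by linarith
  induction n with
  | zero => simp
  | succ n ih =>
    have hF' : ∀ x : ℝ, 0 ≤ x → x ≤ n * ε → ∀ w : ℂ, ‖w - (z + x)‖ < σ →
        DifferentiableAt ℂ F w ∧ ‖F w‖ ≤ B := by
      intro x hx0 hx1
      refine hF x hx0 (hx1.trans ?_)
      push_cast
      nlinarith
    have hn := ih hF'
    have hc := cell θ h0 h1 K (F := F) (z := z + n * ε) (σ := σ) (B := B) hε hεσ
      (fun w hw => hF (n * ε) (by positivity) (by push_cast; nlinarith) w (by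
        push_cast; exact hw))
    have hcont : ContinuousOn (fun x : ℝ => F (z + x)) (Icc 0 ((n + 1) * ε)) := by
      intro x hx
      have h2 := (hF x hx.1 (by push_cast; exact hx.2) (z + x) (by simpa using hσ)).1
      have h3 : ContinuousAt (fun x : ℝ => F (z + x)) x :=
        h2.continuousAt.comp (f := fun x : ℝ => z + (x : ℂ)) (by fun_prop)
      exact h3.continuousWithinAt
    have hnε : (n : ℝ) * ε ≤ (n + 1) * ε := by nlinarith
    have hn0 : (0 : ℝ) ≤ n * ε := by positivity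
    have hi1 : IntervalIntegrable (fun x : ℝ => F (z + x)) volume 0 (n * ε) := by
      refine ContinuousOn.intervalIntegrable ?_
      rw [uIcc_of_le hn0]
      exact hcont.mono (Icc_subset_Icc_right hnε)
    have hi2 : IntervalIntegrable (fun x : ℝ => F (z + x)) volume (n * ε) ((n + 1) * ε) := by
      refine ContinuousOn.intervalIntegrable ?_
      rw [uIcc_of_le hnε]
      exact hcont.mono (Icc_subset_Icc_left hn0)
    have hint : (∫ x in (0:ℝ)..((n + 1 : ℕ) * ε), F (z + x)) =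
        (∫ x in (0:ℝ)..(n * ε), F (z + x)) + ∫ x in (0:ℝ)..ε, F (z + n * ε + x) := by
      push_cast
      rw [← intervalIntegral.integral_add_adjacent_intervals hi1 hi2]
      congr 1
      have h4 := intervalIntegral.integral_comp_add_left (a := 0) (b := ε)
        (fun x : ℝ => F (z + x)) ((n : ℝ) * ε)
      rw [add_zero] at h4
      have h5 : ((n : ℝ) + 1) * ε = n * ε + ε := by ring
      rw [h5, ← h4]
      refine intervalIntegral.integral_congr fun x _ => ?_
      congr 1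
      push_cast
      ring
    have e1 : F (z + ε * (n + θ)) = F (z + n * ε + θ * ε) := by
      congr 1; ring
    have e2 : (z : ℂ) + (n + 1 : ℕ) * ε = z + n * ε + ε := by push_cast; ring
    have e3 : ∑ k ∈ Finset.range K, (bb θ k : ℂ) * (ε : ℂ) ^ k *
        (iteratedDeriv k F (z + (n + 1 : ℕ) * ε) - iteratedDeriv k F z) =
        ∑ k ∈ Finset.range K, (bb θ k : ℂ) * (ε : ℂ) ^ k *
        (iteratedDeriv k F (z + n * ε) - iteratedDeriv k F z) +
        ∑ k ∈ Finset.range K, (bb θ k : ℂ) * (ε : ℂ) ^ k *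
        (iteratedDeriv k F (z + n * ε + ε) - iteratedDeriv k F (z + n * ε)) := by
      rw [← Finset.sum_add_distrib]
      refine Finset.sum_congr rfl fun k _ => ?_
      rw [e2]
      ring
    rw [hint, e3, Finset.sum_range_succ, e1]
    refine le_trans (le_of_eq ?_) ((norm_add_le _ _).trans ((add_le_add hn hc).trans (le_of_eq ?_)))
    · congr 1
      ring
    · push_cast
      ring

end em

open Finset Filter Topology MeasureTheory
open scoped Real
open Pool.Agent.Y472.K Pool.Agent.Y971.TKX Pool.Agent.W571.FE.EM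

theorem core {y : ℝ} (hy : 0 < y) : ∃ (G : ℂ → ℂ) (Θ : ℂ → ℂ → ℂ),
  (∀ w ∈ Metric.ball (((((3 * π) ^ 2 + y ^ 2) / y : ℝ) : ℂ) * Complex.I) (((3 * π) ^ 2 + y ^ 2) / y),
    HasDerivAt G (el w) w) ∧
  (Θ = fun t χ => -(Complex.I * χ * t) + (G (χ + 2 * π * t) - G (χ - 2 * π * t)) / (2 * π)) ∧
  (∀ t : ℝ, 0 ≤ t → t ≤ 1 → AnalyticAt ℂ (fun p : ℂ × ℂ => Θ p.1 p.2) ((t : ℂ), y * Complex.I)) ∧
  (∀ k, ∀ t : ℝ, 0 ≤ t → t ≤ 1 →
    AnalyticAt ℂ (fun p : ℂ × ℂ => (bb 1 k : ℂ) * DF k p.2 p.1) ((t : ℂ), y * Complex.I)) ∧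
  ∃ r : ℝ, 0 < r ∧
    (∀ a b x : ℝ, 0 ≤ a → a ≤ 1 → 0 ≤ b → b ≤ 1 → |x| < r →
      Θ a (x + y * Complex.I) - Θ b (x + y * Complex.I) = ∫ t in b..a, clf x y t) ∧
    ∀ K : ℕ, ∃ C : ℝ, ∀ᶠ N : ℕ in atTop, ∀ j i : ℕ, j ≤ i → i ≤ N → ∀ x : ℝ, |x| < r →
      ∃ e : ℂ, ‖e‖ ≤ C / (N : ℝ) ^ K ∧ Pq N j i (x + y * Complex.I) =
        Complex.exp (N * (Θ ((i : ℂ) / N) (x + y * Complex.I) -
            Θ ((j : ℂ) / N) (x + y * Complex.I)) +
          ∑ k ∈ range K, ((bb 1 k : ℂ) * DF k (x + y * Complex.I) ((i : ℂ) / N) -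
            (bb 1 k : ℂ) * DF k (x + y * Complex.I) ((j : ℂ) / N)) / (N : ℂ) ^ k + e) := by
  obtain ⟨b, hbb⟩ : ∃ b : ℕ → ℝ, b = bb 1 := ⟨_, rfl⟩
  have hb := em_ex 1 (by norm_num) (by norm_num)
  rw [← hbb] at hb
  rw [← hbb]
  set R := ((3 * π) ^ 2 + y ^ 2) / y with hR
  have hpi := Real.pi_pos
  -- the primitive
  obtain ⟨G, hG⟩ : Complex.IsExactOn el (Metric.ball ((R : ℂ) * Complex.I) R) := by
    refine DifferentiableOn.isExactOn_ball ?_
    intro w hw
    exact (el_diffAt (disc_sub hy hw)).differentiableWithinAt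
  have hGa : ∀ w ∈ Metric.ball ((R : ℂ) * Complex.I) R, AnalyticAt ℂ G w := by
    intro w hw
    have h1 : DifferentiableOn ℂ G (Metric.ball ((R : ℂ) * Complex.I) R) := fun v hv =>
      (hG v hv).differentiableAt.differentiableWithinAt
    exact h1.analyticAt (Metric.isOpen_ball.mem_nhds hw)
  have hy1 : Real.exp (-y) < 1 := by
    rw [Real.exp_lt_one_iff]
    linarith
  set r := π - 2 * Real.arcsin (Real.exp (-y)) with hr
  have hr0 : 0 < r := by
    have h1 : Real.arcsin (Real.exp (-y)) < π / 2 := Real.arcsin_lt_pi_div_two.mpr hy1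
    rw [hr]; linarith
  have hrpi : r ≤ π := by
    have h1 : 0 ≤ Real.arcsin (Real.exp (-y)) := Real.arcsin_nonneg.mpr (Real.exp_pos _).le
    rw [hr]; linarith
  -- points of the disc
  have hmem : ∀ x t : ℝ, |x| < r → 0 ≤ t → t ≤ 1 →
      ((x + y * Complex.I : ℂ) + 2 * π * (t : ℂ)) ∈ Metric.ball ((R : ℂ) * Complex.I) R ∧
      ((x + y * Complex.I : ℂ) - 2 * π * (t : ℂ)) ∈ Metric.ball ((R : ℂ) * Complex.I) R := by
    intro x t hx h0 h1
    obtain ⟨i1, i2⟩ := im_pm (x := x) (y := y) (t := t)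
    have hx' := abs_lt.mp hx
    have e : (2 * (π : ℂ) * (t : ℂ)) = ((2 * π * t : ℝ) : ℂ) := by push_cast; ring
    have hpt : 0 ≤ 2 * π * t := by positivity
    have hpt1 : 2 * π * t ≤ 2 * π := by nlinarith
    constructor
    · refine mem_disc hy i1 ?_
      rw [e]
      simp only [Complex.add_re, Complex.mul_re, Complex.ofReal_re, Complex.ofReal_im, Complex.I_re,
        Complex.I_im]
      rw [abs_le]
      constructor <;> linarith
    · refine mem_disc hy i2 ?_
      rw [e]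
      simp only [Complex.add_re, Complex.sub_re, Complex.mul_re, Complex.ofReal_re, Complex.ofReal_im,
        Complex.I_re, Complex.I_im]
      rw [abs_le]
      constructor <;> linarith
  obtain ⟨Θ, hΘ⟩ : ∃ Θ : ℂ → ℂ → ℂ, Θ = fun t χ => -(Complex.I * χ * t) +
      (G (χ + 2 * π * t) - G (χ - 2 * π * t)) / (2 * π) := ⟨_, rfl⟩
  have h2pi : (2 * (π : ℂ)) ≠ 0 := by
    have : (π : ℂ) ≠ 0 := by exact_mod_cast hpi.ne'
    exact mul_ne_zero two_ne_zero this
  have hΘd : ∀ x t : ℝ, |x| < r → 0 ≤ t → t ≤ 1 →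
      HasDerivAt (fun w : ℂ => Θ w (x + y * Complex.I)) (FF (x + y * Complex.I) t) (t : ℂ) := by
    intro x t hx h0 h1
    obtain ⟨m1, m2⟩ := hmem x t hx h0 h1
    have g1 : HasDerivAt (fun w : ℂ => (x + y * Complex.I : ℂ) + 2 * π * w) (2 * π) (t : ℂ) := by
      simpa using ((hasDerivAt_id (t : ℂ)).const_mul (2 * (π : ℂ))).const_add (x + y * Complex.I : ℂ)
    have g2 : HasDerivAt (fun w : ℂ => (x + y * Complex.I : ℂ) - 2 * π * w) (-(2 * π)) (t : ℂ) := by
      simpa using ((hasDerivAt_id (t : ℂ)).const_mul (2 * (π : ℂ))).const_sub (x + y * Complex.I : ℂ)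
    have g3 := (hG _ m1).comp (t : ℂ) g1
    have g4 := (hG _ m2).comp (t : ℂ) g2
    have g5 : HasDerivAt (fun w : ℂ => -(Complex.I * (x + y * Complex.I : ℂ) * w))
        (-(Complex.I * (x + y * Complex.I : ℂ))) (t : ℂ) := by
      have h := ((hasDerivAt_id (t : ℂ)).const_mul (Complex.I * (x + y * Complex.I : ℂ))).neg
      rw [mul_one] at h
      exact h
    have g6 := g5.add ((g3.sub g4).div_const (2 * (π : ℂ)))
    rw [hΘ]
    refine g6.congr_deriv ?_
    unfold FF
    field_simp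
    ring
  have hint : ∀ a c x : ℝ, 0 ≤ a → a ≤ 1 → 0 ≤ c → c ≤ 1 → |x| < r →
      Θ a (x + y * Complex.I) - Θ c (x + y * Complex.I) =
        ∫ t in c..a, FF (x + y * Complex.I) (t : ℂ) := by
    intro a c x ha0 ha1 hc0 hc1 hx
    have hI : ∀ t ∈ Set.uIcc c a, 0 ≤ t ∧ t ≤ 1 := by
      intro t ht
      rw [Set.mem_uIcc] at ht
      rcases ht with ht | ht
      · exact ⟨hc0.trans ht.1, ht.2.trans ha1⟩
      · exact ⟨ha0.trans ht.1, ht.2.trans hc1⟩
    symm
    refine intervalIntegral.integral_eq_sub_of_hasDerivAt (f := fun t : ℝ => Θ (t : ℂ) (x + y * Complex.I))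
      (fun t ht => (hΘd x t hx (hI t ht).1 (hI t ht).2).comp_ofReal) ?_
    apply ContinuousOn.intervalIntegrable
    intro t ht
    obtain ⟨i1, i2⟩ := im_pm (x := x) (y := y) (t := t)
    have c1 : ContinuousAt (FF (x + y * Complex.I)) (t : ℂ) := by
      unfold FF
      have d1 : ContinuousAt (fun w : ℂ => el ((x + y * Complex.I : ℂ) + 2 * π * w)) (t : ℂ) := by
        refine ContinuousAt.comp (g := el) (el_diffAt (by rw [i1]; exact hy)).continuousAt ?_
        fun_prop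
      have d2 : ContinuousAt (fun w : ℂ => el ((x + y * Complex.I : ℂ) - 2 * π * w)) (t : ℂ) := by
        refine ContinuousAt.comp (g := el) (el_diffAt (by rw [i2]; exact hy)).continuousAt ?_
        fun_prop
      exact (continuousAt_const.add d1).add d2
    exact (c1.comp (f := fun t : ℝ => (t : ℂ)) Complex.continuous_ofReal.continuousAt).continuousWithinAt
  refine ⟨G, Θ, hG, hΘ, ?_, ?_, r, hr0, ?_, ?_⟩
  · -- analyticity of the main term
    intro t h0 h1
    obtain ⟨m1, m2⟩ := hmem 0 t (by rw [abs_zero]; exact hr0) h0 h1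
    rw [Complex.ofReal_zero, zero_add] at m1 m2
    rw [hΘ]
    have a1 : AnalyticAt ℂ (fun p : ℂ × ℂ => G (p.2 + 2 * π * p.1)) ((t : ℂ), y * Complex.I) :=
      (hGa _ m1).comp_of_eq (f := fun p : ℂ × ℂ => p.2 + 2 * π * p.1) (an1 _) rfl
    have a2 : AnalyticAt ℂ (fun p : ℂ × ℂ => G (p.2 - 2 * π * p.1)) ((t : ℂ), y * Complex.I) :=
      (hGa _ m2).comp_of_eq (f := fun p : ℂ × ℂ => p.2 - 2 * π * p.1) (an2 _) rfl
    have a3 : AnalyticAt ℂ (fun p : ℂ × ℂ => -(Complex.I * p.2 * p.1)) ((t : ℂ), y * Complex.I) :=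
      ((analyticAt_const.mul analyticAt_snd).mul analyticAt_fst).neg
    exact a3.add ((a1.sub a2).div_const)
  · -- analyticity of the coefficients
    intro k t h0 h1
    obtain ⟨i1, i2⟩ := im_pm (x := 0) (y := y) (t := t)
    rw [Complex.ofReal_zero, zero_add] at i1 i2
    have a1 : AnalyticAt ℂ (fun p : ℂ × ℂ => iteratedDeriv k el (p.2 + 2 * π * p.1))
        ((t : ℂ), y * Complex.I) :=
      (iter_analyticAt k (w := (y * Complex.I : ℂ) + 2 * π * (t : ℂ)) (by rw [i1]; exact hy)).comp_of_eq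
        (f := fun p : ℂ × ℂ => p.2 + 2 * π * p.1) (an1 _) rfl
    have a2 : AnalyticAt ℂ (fun p : ℂ × ℂ => iteratedDeriv k el (p.2 - 2 * π * p.1))
        ((t : ℂ), y * Complex.I) :=
      (iter_analyticAt k (w := (y * Complex.I : ℂ) - 2 * π * (t : ℂ)) (by rw [i2]; exact hy)).comp_of_eq
        (f := fun p : ℂ × ℂ => p.2 - 2 * π * p.1) (an2 _) rfl
    have a3 : AnalyticAt ℂ (fun p : ℂ × ℂ => if k = 0 then -(Complex.I * p.2) else 0)
        ((t : ℂ), y * Complex.I) := by
      split_ifs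
      · exact (analyticAt_const.mul analyticAt_snd).neg
      · exact analyticAt_const
    unfold DF
    exact analyticAt_const.mul ((a3.add (analyticAt_const.mul a1)).add (analyticAt_const.mul a2))
  · -- the integral
    intro a c x ha0 ha1 hc0 hc1 hx
    rw [hint a c x ha0 ha1 hc0 hc1 hx]
    exact intervalIntegral.integral_congr fun t _ => (clf_eq hy hx).symm
  · intro K
    obtain ⟨C, hC0, hC⟩ := hb K
    set σ := y / (4 * π) with hσ
    have hσ0 : 0 < σ := by positivity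
    set B := (r + y) + ((1 - Real.exp (-(y / 2)))⁻¹ / 2 + 1) + ((1 - Real.exp (-(y / 2)))⁻¹ / 2 + 1) with hB
    have hexp : Real.exp (-(y / 2)) < 1 := by
      rw [Real.exp_lt_one_iff]
      linarith
    have hB0 : 0 ≤ B := by
      have : 0 ≤ (1 - Real.exp (-(y / 2)))⁻¹ := by
        rw [inv_nonneg]
        linarith
      rw [hB]
      positivity
    refine ⟨C * (B * (1 / σ) ^ (K + 1)), ?_⟩
    filter_upwards [eventually_ge_atTop (max 1 ⌈4 / σ⌉₊)] with N hN j i hji hiN x hx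
    have hN1 : 1 ≤ N := (le_max_left _ _).trans hN
    have hNr : (0 : ℝ) < N := by exact_mod_cast hN1
    have hNc : (N : ℂ) ≠ 0 := by
      have : N ≠ 0 := by omega
      exact_mod_cast this
    have hN4 : 4 / σ ≤ N := by
      have h1 : ⌈4 / σ⌉₊ ≤ N := (le_max_right _ _).trans hN
      exact (Nat.le_ceil _).trans (by exact_mod_cast h1)
    have hε : 4 * (1 / (N : ℝ)) ≤ σ := by
      rw [mul_one_div, div_le_iff₀ hNr]
      rw [div_le_iff₀ hσ0] at hN4
      linarith
    obtain ⟨χ, hχ⟩ : ∃ χ : ℂ, χ = x + y * Complex.I := ⟨_, rfl⟩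
    rw [← hχ]
    have hχim : χ.im = y := by rw [hχ]; simp
    have hχn : ‖χ‖ ≤ r + y := by
      rw [hχ]
      refine (norm_add_le _ _).trans (add_le_add ?_ ?_)
      · rw [Complex.norm_real]; exact hx.le
      · rw [norm_mul, Complex.norm_I, mul_one, Complex.norm_real, Real.norm_of_nonneg hy.le]
    -- the function near the segment
    have hreg : ∀ s : ℝ, ∀ w : ℂ, ‖w - s‖ < σ → y / 2 ≤ (χ + 2 * π * w).im ∧
        y / 2 ≤ (χ - 2 * π * w).im := by
      intro s w hw
      have h1 : |w.im| < σ := by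
        have := (Complex.abs_im_le_norm (w - s)).trans_lt hw
        rwa [Complex.sub_im, Complex.ofReal_im, sub_zero] at this
      have h2 : (2 * (π : ℂ) * w).im = 2 * π * w.im := by
        have : (2 * (π : ℂ) * w) = ((2 * π : ℝ) : ℂ) * w := by push_cast; ring
        rw [this, Complex.im_ofReal_mul]
      have h3 : 2 * π * σ = y / 2 := by rw [hσ]; field_simp; norm_num
      have h4 := abs_lt.mp h1
      have h5 : 2 * π * w.im < y / 2 := by rw [← h3]; exact mul_lt_mul_of_pos_left h4.2 (by positivity)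
      have h6 : -(y / 2) < 2 * π * w.im := by
        rw [← h3, ← mul_neg]
        exact mul_lt_mul_of_pos_left h4.1 (by positivity)
      rw [Complex.add_im, Complex.sub_im, h2, hχim]
      constructor <;> linarith
    have hprop : ∀ s : ℝ, ∀ w : ℂ, ‖w - s‖ < σ → DifferentiableAt ℂ (FF χ) w ∧ ‖FF χ w‖ ≤ B := by
      intro s w hw
      obtain ⟨h1, h2⟩ := hreg s w hw
      have hy2 : 0 < y / 2 := by positivity
      constructor
      · unfold FF
        have d1 : DifferentiableAt ℂ (fun w : ℂ => el (χ + 2 * π * w)) w :=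
          DifferentiableAt.comp (g := el) w (el_diffAt (hy2.trans_le h1)) (by fun_prop)
        have d2 : DifferentiableAt ℂ (fun w : ℂ => el (χ - 2 * π * w)) w :=
          DifferentiableAt.comp (g := el) w (el_diffAt (hy2.trans_le h2)) (by fun_prop)
        exact ((differentiableAt_const _).add d1).add d2
      · unfold FF
        refine (norm_add_le _ _).trans (add_le_add ((norm_add_le _ _).trans (add_le_add ?_ ?_)) ?_)
        · rw [norm_neg, norm_mul, Complex.norm_I, one_mul]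
          exact hχn
        · exact el_bound hy2 h1
        · exact el_bound hy2 h2
    obtain ⟨z, hz⟩ : ∃ z : ℂ, z = (((j : ℝ) / N : ℝ) : ℂ) := ⟨_, rfl⟩
    have hz' : (j : ℂ) / N = z := by rw [hz]; push_cast; rfl
    have hem := hC (FF χ) z (i - j) (1 / (N : ℝ)) σ B (by positivity) hε (by
      intro s hs0 hs1 w hw
      have h1 : z + s = (((j : ℝ) / N + s : ℝ) : ℂ) := by rw [hz]; push_cast; rfl
      rw [h1] at hw
      exact hprop _ w hw)
    have hnr : ((i - j : ℕ) : ℝ) = i - j := Nat.cast_sub hji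
    have hnc : ((i - j : ℕ) : ℂ) = i - j := Nat.cast_sub hji
    have hnN : ((i - j : ℕ) : ℝ) * (1 / (N : ℝ)) = (i : ℝ) / N - (j : ℝ) / N := by
      rw [hnr]; field_simp
    have hj0 : (0 : ℝ) ≤ (j : ℝ) / N := by positivity
    have hjN : (j : ℝ) ≤ N := by exact_mod_cast hji.trans hiN
    have hiN' : (i : ℝ) ≤ N := by exact_mod_cast hiN
    have hj1 : (j : ℝ) / N ≤ 1 := by rw [div_le_one hNr]; exact hjN
    have hi0 : (0 : ℝ) ≤ (i : ℝ) / N := by positivity
    have hi1 : (i : ℝ) / N ≤ 1 := by rw [div_le_one hNr]; exact hiN'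
    have hend : z + ((i - j : ℕ) : ℂ) * ((1 / (N : ℝ) : ℝ) : ℂ) = (i : ℂ) / N := by
      rw [hnc, ← hz']
      push_cast
      field_simp
      ring
    rw [hend] at hem
    -- the sum
    have hsum : ∑ l ∈ range (i - j), FF χ (z + ((1 / (N : ℝ) : ℝ) : ℂ) * ((l : ℂ) + ((1 : ℝ) : ℂ))) =
        ∑ s ∈ Ioc j i, FF χ ((s : ℂ) / N) := by
      have h1 : ∑ s ∈ Ioc j i, FF χ ((s : ℂ) / N) = ∑ s ∈ Ico (j + 1) (i + 1), FF χ ((s : ℂ) / N) := by
        refine sum_congr ?_ fun _ _ => rfl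
        ext s
        simp only [mem_Ioc, mem_Ico]
        omega
      rw [h1, sum_Ico_eq_sum_range]
      rw [show i + 1 - (j + 1) = i - j by omega]
      refine sum_congr rfl fun l _ => ?_
      rw [← hz']
      congr 1
      push_cast
      field_simp
      ring
    have hprodE : Pq N j i χ = Complex.exp (∑ s ∈ Ioc j i, FF χ ((s : ℂ) / N)) := by
      rw [Complex.exp_sum]
      unfold Pq
      refine prod_congr rfl fun s hs => ?_
      have e1 : (s : ℂ) / N = (((s : ℝ) / N : ℝ) : ℂ) := by push_cast; rfl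
      obtain ⟨h1, h2⟩ := hreg ((s : ℝ) / N) ((s : ℂ) / N) (by rw [e1, sub_self, norm_zero]; exact hσ0)
      have hy2 : 0 < y / 2 := by positivity
      rw [exp_FF (hy2.trans_le h1) (hy2.trans_le h2)]
      congr 2
      push_cast
      congr 1
      ring
    have hintE : (∫ s in (0:ℝ)..(((i - j : ℕ) : ℝ) * (1 / (N : ℝ))), FF χ (z + s)) =
        Θ ((i : ℂ) / N) χ - Θ ((j : ℂ) / N) χ := by
      have h1 := hint ((i : ℝ) / N) ((j : ℝ) / N) x hi0 hi1 hj0 hj1 hx
      rw [← hχ] at h1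
      have e1 : (((i : ℝ) / N : ℝ) : ℂ) = (i : ℂ) / N := by push_cast; rfl
      have e2 : (((j : ℝ) / N : ℝ) : ℂ) = (j : ℂ) / N := by push_cast; rfl
      rw [e1, e2] at h1
      rw [h1, hnN]
      have h2 := intervalIntegral.integral_comp_add_left (a := 0) (b := (i : ℝ) / N - (j : ℝ) / N)
        (fun t : ℝ => FF χ (t : ℂ)) ((j : ℝ) / N)
      rw [add_zero, add_sub_cancel] at h2
      rw [← h2]
      refine intervalIntegral.integral_congr fun s _ => ?_
      show FF χ (z + s) = FF χ (((j : ℝ) / N + s : ℝ) : ℂ)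
      rw [hz]
      push_cast
      rfl
    rw [hsum, hintE] at hem
    obtain ⟨E, hE⟩ : ∃ E : ℂ, E = (∑ s ∈ Ioc j i, FF χ ((s : ℂ) / N)) -
        (((1 / (N : ℝ) : ℝ)) : ℂ)⁻¹ * (Θ ((i : ℂ) / N) χ - Θ ((j : ℂ) / N) χ) -
        ∑ k ∈ range K, (b k : ℂ) * ((1 / (N : ℝ) : ℝ) : ℂ) ^ k *
        (iteratedDeriv k (FF χ) ((i : ℂ) / N) - iteratedDeriv k (FF χ) z) := ⟨_, rfl⟩
    rw [← hE] at hem
    refine ⟨E, ?_, ?_⟩
    · refine hem.trans ?_
      have hnle : ((i - j : ℕ) : ℝ) ≤ N := by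
        rw [hnr]
        have : (0 : ℝ) ≤ j := Nat.cast_nonneg j
        linarith
      have e3 : C * (((i - j : ℕ) : ℝ) * B * (1 / (N : ℝ) / σ) ^ (K + 1)) ≤
          C * ((N : ℝ) * B * (1 / (N : ℝ) / σ) ^ (K + 1)) := by
        apply mul_le_mul_of_nonneg_left _ hC0
        apply mul_le_mul_of_nonneg_right _ (by positivity)
        exact mul_le_mul_of_nonneg_right hnle hB0
      refine e3.trans (le_of_eq ?_)
      have e4 : (1 / (N : ℝ) / σ) ^ (K + 1) = (1 / (N : ℝ)) ^ (K + 1) * (1 / σ) ^ (K + 1) := by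
        rw [← mul_pow]
        congr 1
        ring
      rw [e4]
      have e5 : (N : ℝ) * (1 / (N : ℝ)) ^ (K + 1) = 1 / (N : ℝ) ^ K := by
        rw [pow_succ, one_div, inv_pow, one_div]
        field_simp
      calc C * ((N : ℝ) * B * ((1 / (N : ℝ)) ^ (K + 1) * (1 / σ) ^ (K + 1)))
          = C * (B * (1 / σ) ^ (K + 1)) * ((N : ℝ) * (1 / (N : ℝ)) ^ (K + 1)) := by ring
        _ = _ := by rw [e5]; ring
    · rw [hprodE]
      congr 1
      have e9 : ((1 / (N : ℝ) : ℝ) : ℂ)⁻¹ = N := by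
        push_cast
        rw [one_div, inv_inv]
      have hzi : ∀ k, iteratedDeriv k (FF χ) ((i : ℂ) / N) = DF k χ ((i : ℂ) / N) := by
        intro k
        have e1 : (i : ℂ) / N = (((i : ℝ) / N : ℝ) : ℂ) := by push_cast; rfl
        obtain ⟨h1, h2⟩ := hreg ((i : ℝ) / N) ((i : ℂ) / N) (by rw [e1, sub_self, norm_zero]; exact hσ0)
        have hy2 : 0 < y / 2 := by positivity
        exact iter_FF χ k _ (hy2.trans_le h1) (hy2.trans_le h2)
      have hzj : ∀ k, iteratedDeriv k (FF χ) z = DF k χ ((j : ℂ) / N) := by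
        intro k
        have e1 : (j : ℂ) / N = (((j : ℝ) / N : ℝ) : ℂ) := by push_cast; rfl
        obtain ⟨h1, h2⟩ := hreg ((j : ℝ) / N) ((j : ℂ) / N) (by rw [e1, sub_self, norm_zero]; exact hσ0)
        have hy2 : 0 < y / 2 := by positivity
        rw [← hz']
        exact iter_FF χ k _ (hy2.trans_le h1) (hy2.trans_le h2)
      have e6 : ∑ k ∈ range K, (b k : ℂ) * ((1 / (N : ℝ) : ℝ) : ℂ) ^ k *
          (iteratedDeriv k (FF χ) ((i : ℂ) / N) - iteratedDeriv k (FF χ) z) =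
          ∑ k ∈ range K, ((b k : ℂ) * DF k χ ((i : ℂ) / N) - (b k : ℂ) * DF k χ ((j : ℂ) / N)) /
            (N : ℂ) ^ k := by
        refine sum_congr rfl fun k _ => ?_
        rw [hzi, hzj]
        push_cast
        rw [one_div_pow]
        ring
      rw [e9, e6] at hE
      rw [hE]
      ring

end Pool.Agent.Y372.TA
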