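import Pool.Agent.Y472.L.Defs

/-!
Project TA (helper472): the Taylor coefficients of the integrand.
-/

set_option autoImplicit false

namespace Pool.Agent.Y372.TA

open Finset Filter Topology Pool.Agent.Y472.K Pool.Agent.Y472.L
open scoped Real Nat

/-- Taylor coefficient at zero -/
noncomputable def Tc (f : ℂ → ℂ) (k : ℕ) : ℂ := iteratedDeriv k f 0 / (k ! : ℂ)

theorem Tc_ps {f : ℂ → ℂ} (hf : AnalyticAt ℂ f 0) {p : FormalMultilinearSeries ℂ ℂ ℂ}
    (hp : HasFPowerSeriesAt f p 0) (k : ℕ) : p.coeff k = Tc f k := by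
  have h := hf.hasFPowerSeriesAt
  rw [hp.eq_formalMultilinearSeries h]
  simp [FormalMultilinearSeries.coeff_ofScalars, Tc]

theorem an_dslope {f : ℂ → ℂ} (hf : AnalyticAt ℂ f 0) : AnalyticAt ℂ (dslope f 0) 0 := by
  obtain ⟨p, hp⟩ := hf
  exact ⟨_, hp.has_fpower_series_dslope_fslope⟩

theorem Tc_dslope {f : ℂ → ℂ} (hf : AnalyticAt ℂ f 0) (k : ℕ) :
    Tc (dslope f 0) k = Tc f (k + 1) := by
  have hp := hf.hasFPowerSeriesAt
  rw [← Tc_ps hf hp, ← Tc_ps (an_dslope hf) hp.has_fpower_series_dslope_fslope,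
    FormalMultilinearSeries.coeff_fslope]

theorem Tc_congr {f g : ℂ → ℂ} (h : f =ᶠ[𝓝 0] g) (k : ℕ) : Tc f k = Tc g k := by
  unfold Tc
  rw [h.iteratedDeriv_eq]

theorem Tc_zero (f : ℂ → ℂ) : Tc f 0 = f 0 := by
  simp [Tc]

theorem Tc_add {f g : ℂ → ℂ} (hf : AnalyticAt ℂ f 0) (hg : AnalyticAt ℂ g 0) (k : ℕ) :
    Tc (fun z => f z + g z) k = Tc f k + Tc g k := by
  unfold Tc
  rw [iteratedDeriv_fun_add hf.contDiffAt hg.contDiffAt, add_div]

theorem Tc_sum {α : Type} (s : Finset α) (f : α → ℂ → ℂ) (hf : ∀ i ∈ s, AnalyticAt ℂ (f i) 0)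
    (k : ℕ) : Tc (fun z => ∑ i ∈ s, f i z) k = ∑ i ∈ s, Tc (f i) k := by
  classical
  induction s using Finset.induction_on with
  | empty =>
    simp only [Finset.sum_empty]
    unfold Tc
    rcases k with _ | k
    · simp
    · simp
  | insert a s ha ih =>
    have h1 : (fun z => ∑ i ∈ insert a s, f i z) = fun z => f a z + ∑ i ∈ s, f i z := by
      funext z
      rw [Finset.sum_insert ha]
    rw [h1, Tc_add (hf a (Finset.mem_insert_self a s)), ih (fun i hi => hf i (Finset.mem_insert_of_mem hi)),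
      Finset.sum_insert ha]
    apply Finset.analyticAt_fun_sum
    intro i hi
    exact hf i (Finset.mem_insert_of_mem hi)

theorem Tc_mul {f g : ℂ → ℂ} (hf : AnalyticAt ℂ f 0) (hg : AnalyticAt ℂ g 0) (k : ℕ) :
    Tc (fun z => f z * g z) k = ∑ i ∈ range (k + 1), Tc f i * Tc g (k - i) := by
  unfold Tc
  have h1 : iteratedDeriv k (fun z => f z * g z) 0 = ∑ i ∈ range (k + 1),
      (k.choose i : ℂ) * iteratedDeriv i f 0 * iteratedDeriv (k - i) g 0 := by
    have := iteratedDeriv_mul (n := k) (f := f) (g := g) (x := (0 : ℂ)) hf.contDiffAt hg.contDiffAt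
    exact this
  rw [h1, Finset.sum_div]
  apply Finset.sum_congr rfl
  intro i hi
  rw [Finset.mem_range] at hi
  have h2 : ((k.choose i : ℕ) : ℂ) * (i ! : ℂ) * ((k - i)! : ℂ) = (k ! : ℂ) := by
    exact_mod_cast Nat.choose_mul_factorial_mul_factorial (by omega : i ≤ k)
  have h3 : (i ! : ℂ) ≠ 0 := by exact_mod_cast Nat.factorial_ne_zero i
  have h4 : ((k - i)! : ℂ) ≠ 0 := by exact_mod_cast Nat.factorial_ne_zero (k - i)
  have h5 : (k ! : ℂ) ≠ 0 := by exact_mod_cast Nat.factorial_ne_zero k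
  field_simp
  rw [← h2]
  ring

theorem Tc_z_mul {f : ℂ → ℂ} (hf : AnalyticAt ℂ f 0) (k : ℕ) :
    Tc (fun z => f z * z) (k + 1) = Tc f k := by
  have h1 : AnalyticAt ℂ (fun z : ℂ => f z * z) 0 := hf.mul analyticAt_id
  rw [← Tc_dslope h1]
  apply Tc_congr
  filter_upwards with z
  rcases eq_or_ne z 0 with h0 | h0
  · subst h0
    rw [dslope_same]
    have h2 : HasDerivAt (fun z : ℂ => f z * z) (deriv f 0 * 0 + f 0 * 1) 0 :=
      hf.differentiableAt.hasDerivAt.mul (hasDerivAt_id (0 : ℂ))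
    rw [h2.deriv]
    ring
  · rw [dslope_of_ne _ h0, slope_def_field]
    field_simp
    ring

theorem Tc_z_mul_zero (f : ℂ → ℂ) : Tc (fun z => f z * z) 0 = 0 := by
  rw [Tc_zero, mul_zero]

theorem Tc_pow_mul {f : ℂ → ℂ} (hf : AnalyticAt ℂ f 0) (m k : ℕ) :
    Tc (fun z => f z * z ^ m) k = if m ≤ k then Tc f (k - m) else 0 := by
  induction m generalizing k with
  | zero => simp
  | succ m ih =>
    have h1 : (fun z : ℂ => f z * z ^ (m + 1)) = fun z => (f z * z ^ m) * z := by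
      funext z
      ring
    have h2 : AnalyticAt ℂ (fun z : ℂ => f z * z ^ m) 0 := hf.mul (analyticAt_id.pow m)
    rw [h1]
    rcases k with _ | k
    · rw [Tc_z_mul_zero, if_neg (by omega)]
    · rw [Tc_z_mul h2, ih]
      by_cases h : m ≤ k
      · rw [if_pos h, if_pos (by omega)]
        congr 1
        omega
      · rw [if_neg h, if_neg (by omega)]

theorem Tc_deriv (f : ℂ → ℂ) (k : ℕ) : Tc (deriv f) k = (k + 1) * Tc f (k + 1) := by
  unfold Tc
  rw [← iteratedDeriv_succ', Nat.factorial_succ]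
  have h3 : (k ! : ℂ) ≠ 0 := by exact_mod_cast Nat.factorial_ne_zero k
  have h4 : ((k : ℂ) + 1) ≠ 0 := by exact_mod_cast Nat.succ_ne_zero k
  push_cast
  field_simp

theorem Tc_exp {h : ℂ → ℂ} (hh : AnalyticAt ℂ h 0) (k : ℕ) :
    ((k : ℂ) + 1) * Tc (fun z => Complex.exp (h z)) (k + 1) =
      ∑ i ∈ range (k + 1), ((i : ℂ) + 1) * Tc h (i + 1) * Tc (fun z => Complex.exp (h z)) (k - i) := by
  have hF : AnalyticAt ℂ (fun z => Complex.exp (h z)) 0 := hh.cexp
  rw [← Tc_deriv]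
  have h1 : deriv (fun z => Complex.exp (h z)) =ᶠ[𝓝 0] fun z => deriv h z * Complex.exp (h z) := by
    filter_upwards [hh.eventually_analyticAt] with z hz
    rw [(hz.differentiableAt.hasDerivAt.cexp).deriv]
    ring
  rw [Tc_congr h1, Tc_mul hh.deriv hF]
  apply Finset.sum_congr rfl
  intro i _
  rw [Tc_deriv]

section mem

variable {ι : Type} [Fintype ι] {E : Subfield ℂ} {κ : ℂ}

theorem pI_ne : pI ≠ 0 := by
  unfold pI
  simp [Real.pi_ne_zero]

theorem mn_mul (m m' : ℤ) (α α' : ι → ℕ) (β β' : ℕ) :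
    mn κ m α β * mn κ m' α' β' = mn κ (m + m') (α + α') (β + β') := by
  funext t
  unfold mn
  simp only [Pi.mul_apply, Pi.add_apply]
  rw [zpow_add₀ pI_ne, pow_add, Finset.prod_congr rfl (fun a _ => pow_add (pI * (t.1 a : ℂ)) (α a) (α' a)),
    Finset.prod_mul_distrib]
  ring

theorem TP_mul {i j : ℤ} {f g : ((ι → ℝ) × ℝ) → ℂ} (hf : f ∈ TP E κ i) (hg : g ∈ TP E κ j) :
    f * g ∈ TP E κ (i + j) := by
  have h := Submodule.mul_mem_mul hf hg
  unfold TP at h ⊢
  rw [Submodule.span_mul_span] at h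
  refine Submodule.span_mono ?_ h
  rintro x ⟨a, ⟨m, α, β, h1, rfl⟩, b, ⟨m', α', β', h2, rfl⟩, rfl⟩
  refine ⟨m + m', α + α', β + β', ?_, mn_mul m m' α α' β β'⟩
  simp only [Pi.add_apply, Nat.cast_add, Finset.sum_add_distrib]
  linarith

theorem TP_one : (1 : ((ι → ℝ) × ℝ) → ℂ) ∈ TP E κ 0 := by
  apply Submodule.subset_span
  refine ⟨0, 0, 0, by simp, ?_⟩
  funext t
  simp [mn]

theorem HP_le {m : ℤ} {k : ℕ} {j : ℤ} (h : (k : ℤ) + 2 * m = j) {f : ((ι → ℝ) × ℝ) → ℂ}
    (hf : f ∈ HP E κ m k) : f ∈ TP E κ j := by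
  unfold HP at hf
  unfold TP
  refine Submodule.span_mono ?_ hf
  rintro x ⟨α, β, h1, rfl⟩
  refine ⟨m, α, β, ?_, rfl⟩
  rw [← h, ← h1]
  push_cast
  ring

theorem smul_nat_mem {j : ℤ} {f : ((ι → ℝ) × ℝ) → ℂ} (hf : f ∈ TP E κ j) (n : ℕ) :
    (fun t => ((n : ℂ) + 1) * f t) ∈ TP E κ j := by
  have h := (TP E κ j).smul_mem ((n : E) + 1) hf
  exact h

theorem smul_inv_mem {j : ℤ} {f : ((ι → ℝ) × ℝ) → ℂ} (hf : f ∈ TP E κ j) (n : ℕ) :
    (fun t => ((n : ℂ) + 1)⁻¹ * f t) ∈ TP E κ j := by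
  have h := (TP E κ j).smul_mem (((n : E) + 1)⁻¹) hf
  exact h

end mem

theorem wj : Pool.Agent.Y472.L.S_WJ := by
  intro ι _ E κ p₀ Ψ D K τ _ hK hΨ _ _ hτ
  -- the exponent along the line
  let h : ((ι → ℝ) × ℝ) → ℂ → ℂ := fun t z => Pool.Agent.Y306.TKX.gt Ψ p₀ D t z +
    ∑ l ∈ Finset.range K, τ l (p₀ + z • cst t) * z ^ (2 * l)
  have hline : ∀ (f : (ι → ℂ) × ℂ → ℂ), AnalyticAt ℂ f p₀ → ∀ t,
      AnalyticAt ℂ (fun z : ℂ => f (p₀ + z • cst t)) 0 := by
    intro f hf t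
    have h1 : AnalyticAt ℂ (fun z : ℂ => p₀ + z • cst t) 0 :=
      analyticAt_const.add (analyticAt_id.smul analyticAt_const)
    have h2 : AnalyticAt ℂ f ((fun z : ℂ => p₀ + z • cst t) 0) := by simpa using hf
    exact AnalyticAt.fun_comp (g := f) h2 h1
  have hB : ∀ t, AnalyticAt ℂ (Pool.Agent.Y306.TKX.Bt Ψ p₀ D t) 0 := by
    intro t
    exact (hline Ψ hΨ.an t).sub analyticAt_const
  have hg : ∀ t, AnalyticAt ℂ (Pool.Agent.Y306.TKX.gt Ψ p₀ D t) 0 := by
    intro t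
    exact an_dslope (an_dslope (hB t))
  have hτa : ∀ l < K, ∀ t, AnalyticAt ℂ (fun z : ℂ => τ l (p₀ + z • cst t)) 0 :=
    fun l hl t => hline (τ l) (hτ l hl).an t
  have hgT : ∀ t k, Tc (Pool.Agent.Y306.TKX.gt Ψ p₀ D t) k = tc Ψ p₀ (k + 2) t := by
    intro t k
    unfold Pool.Agent.Y306.TKX.gt
    rw [Tc_dslope (an_dslope (hB t)), Tc_dslope (hB t)]
    have e1 : deriv (Pool.Agent.Y306.TKX.Bt Ψ p₀ D t) = deriv (fun z : ℂ => Ψ (p₀ + z • cst t)) := by
      funext z
      unfold Pool.Agent.Y306.TKX.Bt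
      rw [deriv_sub_const]
    have e2 : iteratedDeriv (k + 1 + 1) (Pool.Agent.Y306.TKX.Bt Ψ p₀ D t) =
        iteratedDeriv (k + 1 + 1) (fun z : ℂ => Ψ (p₀ + z • cst t)) := by
      rw [iteratedDeriv_succ', iteratedDeriv_succ' (f := fun z : ℂ => Ψ (p₀ + z • cst t)), e1]
    unfold Tc tc
    rw [e2]
  have hsA : ∀ t, ∀ l ∈ Finset.range K,
      AnalyticAt ℂ (fun z : ℂ => τ l (p₀ + z • cst t) * z ^ (2 * l)) 0 := by
    intro t l hl
    exact (hτa l (Finset.mem_range.mp hl) t).mul (analyticAt_id.pow _)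
  have hhA : ∀ t, AnalyticAt ℂ (h t) 0 := by
    intro t
    refine (hg t).add ?_
    exact Finset.analyticAt_fun_sum _ (hsA t)
  have hhT : ∀ t j, Tc (h t) j = tc Ψ p₀ (j + 2) t +
      ∑ l ∈ Finset.range K, (if 2 * l ≤ j then tc (τ l) p₀ (j - 2 * l) t else 0) := by
    intro t j
    rw [← hgT t j]
    have e : Tc (h t) j = Tc (Pool.Agent.Y306.TKX.gt Ψ p₀ D t) j +
        Tc (fun z => ∑ l ∈ Finset.range K, τ l (p₀ + z • cst t) * z ^ (2 * l)) j :=
      Tc_add (hg t) (Finset.analyticAt_fun_sum _ (hsA t)) j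
    rw [e, Tc_sum _ _ (hsA t)]
    congr 1
    apply Finset.sum_congr rfl
    intro l hl
    rw [Tc_pow_mul (hτa l (Finset.mem_range.mp hl) t)]
    rfl
  -- the coefficients of positive order
  have hmem : ∀ j : ℕ, 1 ≤ j → (fun t => Tc (h t) j) ∈ TP E κ (j : ℤ) := by
    intro j hj
    have e : (fun t => Tc (h t) j) = tc Ψ p₀ (j + 2) +
        ∑ l ∈ Finset.range K, (if 2 * l ≤ j then tc (τ l) p₀ (j - 2 * l) else 0) := by
      funext t
      rw [hhT t j, Pi.add_apply, Finset.sum_apply]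
      congr 1
      apply Finset.sum_congr rfl
      intro l _
      by_cases h1 : 2 * l ≤ j
      · rw [if_pos h1, if_pos h1]
      · rw [if_neg h1, if_neg h1]
        rfl
    rw [e]
    apply Submodule.add_mem
    · refine HP_le ?_ (hΨ.tc (j + 2) (by omega))
      push_cast
      ring
    · apply Submodule.sum_mem
      intro l hl
      rw [Finset.mem_range] at hl
      by_cases h1 : 2 * l ≤ j
      · rw [if_pos h1]
        refine HP_le ?_ ((hτ l hl).tc (j - 2 * l) ?_)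
        · push_cast [Nat.cast_sub h1]
          ring
        · split_ifs with h0
          · subst h0
            omega
          · omega
      · rw [if_neg h1]
        exact Submodule.zero_mem _
  have hh0 : ∀ t, h t 0 = tc Ψ p₀ 2 t + τ 0 p₀ := by
    intro t
    have h1 := hhT t 0
    rw [Tc_zero] at h1
    rw [h1, Finset.sum_eq_single 0]
    · rw [if_pos (by omega)]
      congr 1
      unfold tc
      simp
    · intro l _ hl
      rw [if_neg (by omega)]
    · intro hn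
      exact absurd (Finset.mem_range.mpr (by omega)) hn
  have hE : ∀ t, (fun z => Pool.Agent.Y306.TKX.Ef Ψ p₀ D K τ z t) =
      fun z => Complex.exp (h t z) := fun t => rfl
  intro j
  induction j using Nat.strong_induction_on with
  | _ j ih =>
    rcases j with _ | j
    · refine ⟨1, TP_one, ?_⟩
      intro t
      rw [hE t]
      simp [hh0 t]
    · have ih' : ∀ i, ∃ W : ((ι → ℝ) × ℝ) → ℂ, i ≤ j → W ∈ TP E κ (i : ℤ) ∧
          ∀ t : (ι → ℝ) × ℝ, Tc (fun z => Complex.exp (h t z)) i =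
            Complex.exp (tc Ψ p₀ 2 t + τ 0 p₀) * W t := by
        intro i
        by_cases hi : i ≤ j
        · obtain ⟨W, h1, h2⟩ := ih i (by omega)
          exact ⟨W, fun _ => ⟨h1, h2⟩⟩
        · exact ⟨0, fun h => absurd h hi⟩
      choose W hW using ih'
      refine ⟨fun t => ((j : ℂ) + 1)⁻¹ * ∑ i ∈ range (j + 1),
        (((i : ℂ) + 1) * Tc (h t) (i + 1)) * W (j - i) t, ?_, ?_⟩
      · apply smul_inv_mem
        have e : (fun t => ∑ i ∈ range (j + 1), (((i : ℂ) + 1) * Tc (h t) (i + 1)) * W (j - i) t)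
            = ∑ i ∈ range (j + 1), ((fun t => ((i : ℂ) + 1) * Tc (h t) (i + 1)) * W (j - i)) := by
          funext t
          rw [Finset.sum_apply]
          rfl
        rw [e]
        apply Submodule.sum_mem
        intro i hi
        rw [Finset.mem_range] at hi
        have h1 := smul_nat_mem (hmem (i + 1) (by omega)) i
        have h2 := (hW (j - i) (by omega)).1
        have h3 := TP_mul h1 h2
        have e2 : ((i + 1 : ℕ) : ℤ) + ((j - i : ℕ) : ℤ) = ((j + 1 : ℕ) : ℤ) := by omega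
        rw [e2] at h3
        exact h3
      · intro t
        rw [hE t]
        change Tc (fun z => Complex.exp (h t z)) (j + 1) = _
        have h1 := Tc_exp (hhA t) j
        have h4 : ((j : ℂ) + 1) ≠ 0 := by exact_mod_cast Nat.succ_ne_zero j
        have h2 : Tc (fun z => Complex.exp (h t z)) (j + 1) = ((j : ℂ) + 1)⁻¹ *
            (((j : ℂ) + 1) * Tc (fun z => Complex.exp (h t z)) (j + 1)) := by
          field_simp
        rw [h2, h1]
        beta_reduce
        rw [Finset.mul_sum, Finset.mul_sum, Finset.mul_sum]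
        apply Finset.sum_congr rfl
        intro i hi
        rw [Finset.mem_range] at hi
        rw [(hW (j - i) (by omega)).2 t]
        ring

end Pool.Agent.Y372.TA
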